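import Mathlib
import Pool.Agent.Q137.Queens.Main

/-!
# Generalized `n`-queens coin placements exist for all `n ≥ 4` and all `0 ≤ c ≤ n`

The board is `Fin n × Fin n` (cell `(i, j)` = row `i`, column `j`); a set `S` of cells holds at
most one coin per cell.  `IsPlacement n c S` says that `S` has exactly `n c` cells and that every
row, every column and every diagonal of either direction contains at most `c` cells of `S`.
-/

set_option autoImplicit false

namespace Pool.Agent.Results.MP_712a2d_co.AllPlacements

/-- An `(n, c)`-placement: `n c` cells of the `n × n` board, at most `c` on every row, on every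
column, on every diagonal `i + j = k` and on every diagonal `i - j = d`. -/
def IsPlacement (n c : ℕ) (S : Finset (Fin n × Fin n)) : Prop :=
  S.card = n * c ∧
  (∀ a : Fin n, (S.filter (fun p => p.1 = a)).card ≤ c) ∧
  (∀ b : Fin n, (S.filter (fun p => p.2 = b)).card ≤ c) ∧
  (∀ k : ℕ, (S.filter (fun p => (p.1 : ℕ) + (p.2 : ℕ) = k)).card ≤ c) ∧
  (∀ d : ℤ, (S.filter (fun p => ((p.1 : ℕ) : ℤ) - ((p.2 : ℕ) : ℤ) = d)).card ≤ c)

/-- **Answer to Q1 (positive).**  For every `n ≥ 4` and every `c` with `0 ≤ c ≤ n`, an
`(n, c)`-placement exists. -/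
theorem result (n : ℕ) (hn : 4 ≤ n) (c : ℕ) (hc : c ≤ n) :
    ∃ S : Finset (Fin n × Fin n), IsPlacement n c S := by
  obtain ⟨L, hL⟩ := Q137.Queens.exists_loc n hn c hc
  exact Q137.Queens.exists_finset hL

end Pool.Agent.Results.MP_712a2d_co.AllPlacements
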